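import Pool.Agent.TH253.GS.Zero

/-!
# Gyárfás–Sumner and induced half-graphs
-/

set_option autoImplicit false

namespace Pool.Agent.TH253.GS

open Pool.Agent.H367R3

/-- The bipartite half-graph with vertices `a_0, …, a_(n-1)` (`Sum.inl`) and `b_0, …, b_(n-1)`
(`Sum.inr`) and edges `a_i b_j`, `i ≤ j`. -/
def halfGraph (n : ℕ) : SimpleGraph (Fin n ⊕ Fin n) where
  Adj x y := (∃ i j, x = Sum.inl i ∧ y = Sum.inr j ∧ i ≤ j) ∨
    (∃ i j, y = Sum.inl i ∧ x = Sum.inr j ∧ i ≤ j)
  symm := ⟨by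
    rintro x y (h | h)
    · exact Or.inr h
    · exact Or.inl h⟩
  loopless := ⟨by
    rintro x (⟨i, j, h1, h2, _⟩ | ⟨i, j, h1, h2, _⟩)
    · rw [h1] at h2
      cases h2
    · rw [h1] at h2
      cases h2⟩

/-- With bounded cliques, large half-graphs contain large induced half-graphs. -/
theorem induced_half (k n : ℕ) : ∃ N : ℕ, ∀ (V : Type) (G : SimpleGraph V), G.CliqueFree k →
    ¬ Nonempty (halfGraph n ↪g G) → ¬ HG G.Adj N := by
  classical
  obtain ⟨N, hN⟩ := ramsey_pairs (Prop × Prop) (k + n + 2)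
  refine ⟨N, fun V G hk hG => ?_⟩
  rintro ⟨a, b, hab⟩
  obtain ⟨e, he, ⟨α, β⟩, hγ⟩ := hN fun i j => (G.Adj (a i) (a j), G.Adj (b i) (b j))
  have hcol : ∀ i j, i < j → (G.Adj (a (e i)) (a (e j)) = α) ∧ (G.Adj (b (e i)) (b (e j)) = β) := by
    intro i j hij
    have h1 := hγ i j hij
    simp only [Prod.mk.injEq] at h1
    exact h1
  have key : ∀ i j : Fin (k + n + 2), G.Adj (a (e i)) (b (e j)) ↔ i ≤ j := by
    intro i j
    rw [hab]
    exact he.le_iff_le
  have hne : ∀ (g : Fin (k + n + 2) → V), (∀ i j, i < j → G.Adj (g i) (g j)) → False := by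
    intro g hg
    have hinj : Function.Injective g := by
      intro i j h
      rcases lt_trichotomy i j with h1 | h1 | h1
      · exact absurd h (hg i j h1).ne
      · exact h1
      · exact absurd h.symm (hg j i h1).ne
    have h2 : G.IsNClique (k + n + 2) (Finset.univ.image g) := by
      refine ⟨?_, by rw [Finset.card_image_of_injective _ hinj, Finset.card_univ, Fintype.card_fin]⟩
      intro x hx y hy hxy
      simp only [Finset.coe_image, Finset.coe_univ, Set.image_univ, Set.mem_range] at hx hy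
      obtain ⟨i, rfl⟩ := hx
      obtain ⟨j, rfl⟩ := hy
      rcases lt_trichotomy i j with h1 | h1 | h1
      · exact hg i j h1
      · exact absurd (congrArg g h1) hxy
      · exact (hg j i h1).symm
    exact hk.mono (by omega) _ h2
  have hα : ¬ α := fun h => hne (fun i => a (e i)) fun i j hij => by
    rw [(hcol i j hij).1]; exact h
  have hβ : ¬ β := fun h => hne (fun i => b (e i)) fun i j hij => by
    rw [(hcol i j hij).2]; exact h
  have naa : ∀ i j : Fin (k + n + 2), ¬ G.Adj (a (e i)) (a (e j)) := by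
    intro i j h
    rcases lt_trichotomy i j with h1 | h1 | h1
    · rw [(hcol i j h1).1] at h
      exact hα h
    · rw [h1] at h
      exact G.irrefl h
    · have h2 := h.symm
      rw [(hcol j i h1).1] at h2
      exact hα h2
  have nbb : ∀ i j : Fin (k + n + 2), ¬ G.Adj (b (e i)) (b (e j)) := by
    intro i j h
    rcases lt_trichotomy i j with h1 | h1 | h1
    · rw [(hcol i j h1).2] at h
      exact hβ h
    · rw [h1] at h
      exact G.irrefl h
    · have h2 := h.symm
      rw [(hcol j i h1).2] at h2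
      exact hβ h2
  have hle : n + 1 ≤ k + n + 2 := by omega
  -- the embedding: `a_i ↦ a (e (i + 1))`, `b_j ↦ b (e (j + 1))`
  let s : Fin n → Fin (k + n + 2) := fun i => ⟨i.1 + 1, by omega⟩
  have hs : ∀ i j : Fin n, s i ≤ s j ↔ i ≤ j := by
    intro i j
    rw [Fin.le_def, Fin.le_def]
    show i.1 + 1 ≤ j.1 + 1 ↔ _
    omega
  let z : Fin (k + n + 2) := ⟨k + n + 1, by omega⟩
  have hz : ∀ i, i ≤ z := fun i => by
    rw [Fin.le_def]
    show i.1 ≤ k + n + 1
    omega
  have ainj : ∀ i j : Fin (k + n + 2), a (e i) = a (e j) → i = j := by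
    intro i j h
    have h1 := (key i i).2 le_rfl
    have h2 := (key j j).2 le_rfl
    rw [h] at h1
    rw [← h] at h2
    exact le_antisymm ((key i j).1 h2) ((key j i).1 h1)
  have binj : ∀ i j : Fin (k + n + 2), b (e i) = b (e j) → i = j := by
    intro i j h
    have h1 := (key i i).2 le_rfl
    have h2 := (key j j).2 le_rfl
    rw [h] at h1
    rw [← h] at h2
    exact le_antisymm ((key i j).1 h1) ((key j i).1 h2)
  have abne : ∀ i j : Fin (k + n + 2), a (e i) ≠ b (e j) := by
    intro i j h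
    have h1 := (key i z).2 (hz i)
    rw [h] at h1
    exact nbb _ _ h1
  apply hG
  refine ⟨⟨⟨fun x => Sum.elim (fun i => a (e (s i))) (fun j => b (e (s j))) x, ?_⟩, ?_⟩⟩
  · rintro (i | i) (j | j) h
    · have h1 := ainj _ _ h
      have h2 : i = j := le_antisymm ((hs i j).1 h1.le) ((hs j i).1 h1.ge)
      rw [h2]
    · exact absurd h (abne _ _)
    · exact absurd h.symm (abne _ _)
    · have h1 := binj _ _ h
      have h2 : i = j := le_antisymm ((hs i j).1 h1.le) ((hs j i).1 h1.ge)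
      rw [h2]
  · rintro (i | i) (j | j)
    · constructor
      · intro h
        exact absurd h (naa _ _)
      · rintro (⟨_, _, _, h, _⟩ | ⟨_, _, _, h, _⟩) <;> cases h
    · constructor
      · intro h
        exact Or.inl ⟨i, j, rfl, rfl, (hs i j).1 ((key _ _).1 h)⟩
      · rintro (⟨i', j', h1, h2, h3⟩ | ⟨_, _, h, _, _⟩)
        · cases h1
          cases h2
          exact (key _ _).2 ((hs _ _).2 h3)
        · cases h
    · constructor
      · intro h
        exact Or.inr ⟨j, i, rfl, rfl, (hs j i).1 ((key _ _).1 h.symm)⟩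
      · rintro (⟨_, _, h, _, _⟩ | ⟨i', j', h1, h2, h3⟩)
        · cases h
        · cases h1
          cases h2
          exact ((key _ _).2 ((hs _ _).2 h3)).symm
    · constructor
      · intro h
        exact absurd h (nbb _ _)
      · rintro (⟨_, _, h, _, _⟩ | ⟨_, _, h, _, _⟩) <;> cases h

/-- Gluing colourings of the colour classes. -/
theorem colorable_of_classes {V : Type} (G : SimpleGraph V) {c C : ℕ} (col : V → Fin c)
    (h : ∀ i : Fin c, (G.induce {v | col v = i}).Colorable C) : G.Colorable (c * C) := by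
  have d : ∀ i : Fin c, (G.induce {v | col v = i}).Coloring (Fin C) := fun i =>
    Classical.choice (h i)
  have hcol : G.Colorable (Fintype.card (Fin c × Fin C)) := by
    apply SimpleGraph.Coloring.colorable
    refine SimpleGraph.Coloring.mk (fun v => (col v, d (col v) ⟨v, rfl⟩)) ?_
    intro u v huv hc
    have h1 : col u = col v := congrArg Prod.fst hc
    have h2 : d (col u) ⟨u, rfl⟩ = d (col v) ⟨v, rfl⟩ := congrArg Prod.snd hc
    have h3 : ∀ (i : Fin c) (hi : col v = i), d (col v) ⟨v, rfl⟩ = d i ⟨v, hi⟩ := by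
      rintro i rfl
      rfl
    rw [h3 (col u) h1.symm] at h2
    have hadj : (G.induce {w | col w = col u}).Adj ⟨u, rfl⟩ ⟨v, h1.symm⟩ := huv
    exact (d (col u)).valid hadj h2
  rwa [Fintype.card_prod, Fintype.card_fin, Fintype.card_fin] at hcol

/-- the common form: classes without half-graphs of an order depending on the clique number -/
theorem main_classes (m : ℕ) (F : SimpleGraph (Fin m)) (hF : F.IsAcyclic) (N : ℕ → ℕ) :
    ∃ f : ℕ → ℕ, ∀ (V : Type) [Fintype V] (G : SimpleGraph V) (c : ℕ) (col : V → Fin c),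
      (∀ i, ¬ HG (G.induce {v | col v = i}).Adj (N G.cliqueNum)) → ¬ Nonempty (F ↪g G) →
      G.chromaticNumber ≤ (c * f G.cliqueNum : ℕ) := by
  obtain ⟨T, hT, ⟨e⟩⟩ := forest_in_tree F hF
  have hex : ∀ k : ℕ, ∃ C : ℕ, ∀ (V : Type) [Finite V] (G : SimpleGraph V),
      ¬ HalfGraph G (N k) → G.CliqueFree (k + 1) → ¬ Nonempty (T ↪g G) → G.Colorable C :=
    fun k => gyarfas_sumner_stable (N k) (k + 1) (m + 1) T hT
  choose f hf using hex
  refine ⟨f, fun V _ G c col hG hFG => ?_⟩
  apply SimpleGraph.Colorable.chromaticNumber_le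
  apply colorable_of_classes G col
  intro i
  apply hf G.cliqueNum
  · exact hG i
  · have h1 : G.CliqueFree (G.cliqueNum + 1) := by
      intro s hs
      have := hs.isClique.card_le_cliqueNum
      have h2 := hs.card_eq
      omega
    exact h1.comap ⟨(SimpleGraph.Embedding.induce _).toCopy⟩
  · rintro ⟨g⟩
    exact hFG ⟨(e.trans g).trans (SimpleGraph.Embedding.induce _)⟩

/-- classes without induced half-graphs -/
theorem main_induced (m n : ℕ) (F : SimpleGraph (Fin m)) (hF : F.IsAcyclic) :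
    ∃ f : ℕ → ℕ, ∀ (V : Type) [Fintype V] (G : SimpleGraph V) (c : ℕ) (col : V → Fin c),
      (∀ i, ¬ Nonempty (halfGraph n ↪g G.induce {v | col v = i})) → ¬ Nonempty (F ↪g G) →
      G.chromaticNumber ≤ (c * f G.cliqueNum : ℕ) := by
  choose N hN using fun k => induced_half (k + 1) n
  obtain ⟨f, hf⟩ := main_classes m F hF N
  refine ⟨f, fun V _ G c col h hFG => hf V G c col (fun i => ?_) hFG⟩
  apply hN
  · have h1 : G.CliqueFree (G.cliqueNum + 1) := by
      intro s hs
      have := hs.isClique.card_le_cliqueNum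
      have h2 := hs.card_eq
      omega
    exact h1.comap ⟨(SimpleGraph.Embedding.induce _).toCopy⟩
  · exact h i

/-- relations depending on one of the two variables only have no half-graph of order two -/
theorem unary_left {V : Type} (Q : V → Prop) {n : ℕ} (hn : 2 ≤ n) : ¬ HG (fun u _ : V => Q u) n := by
  rintro ⟨a, b, hab⟩
  have h1 : Q (a ⟨1, by omega⟩) := (hab ⟨1, by omega⟩ ⟨1, by omega⟩).2 le_rfl
  have h2 : (⟨1, by omega⟩ : Fin n) ≤ ⟨0, by omega⟩ := (hab ⟨1, by omega⟩ ⟨0, by omega⟩).1 h1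
  exact absurd h2 (by rw [Fin.le_def]; simp)

theorem unary_right {V : Type} (Q : V → Prop) {n : ℕ} (hn : 2 ≤ n) : ¬ HG (fun _ v : V => Q v) n := by
  rintro ⟨a, b, hab⟩
  have h1 : Q (b ⟨0, by omega⟩) := (hab ⟨0, by omega⟩ ⟨0, by omega⟩).2 le_rfl
  have h2 : (⟨1, by omega⟩ : Fin n) ≤ ⟨0, by omega⟩ := (hab ⟨1, by omega⟩ ⟨0, by omega⟩).1 h1
  exact absurd h2 (by rw [Fin.le_def]; simp)

/-- zero patterns of matrices of bounded rank, locally at every edge -/
theorem main_rank (m s r : ℕ) (F : SimpleGraph (Fin m)) (hF : F.IsAcyclic) :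
    ∃ f : ℕ → ℕ, ∀ (V : Type) [Fintype V] (G P : SimpleGraph V) (c : ℕ), P.Colorable c →
      (∀ x y, G.Adj x y → ∃ (K : Fin s → Type) (_ : ∀ t, Field (K t)) (M : ∀ t, Matrix V V (K t))
        (φ : (Fin s → Prop) → Prop), (∀ t, (M t).rank ≤ r) ∧
        ∀ u v, G.Adj y u → G.Adj x v → u ≠ v → ¬ P.Adj u v →
          (G.Adj u v ↔ φ fun t => M t u v = 0)) →
      ¬ Nonempty (F ↪g G) → G.chromaticNumber ≤ (c * f G.cliqueNum : ℕ) := by
  obtain ⟨N, hN⟩ := boolean_stable.{0} (s + 2) (r + 2)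
  obtain ⟨f, hf⟩ := main_classes m F hF fun _ => N + 1
  refine ⟨f, fun V _ G P c hP hloc hFG => ?_⟩
  obtain ⟨col⟩ := hP
  refine hf V G c col (fun i => ?_) hFG
  rintro ⟨a, b, hab⟩
  have hadj : ∀ j l, G.Adj (a j).1 (b l).1 ↔ j ≤ l := hab
  obtain ⟨K, _, M, φ, hM, hA⟩ := hloc (a 0).1 (b (Fin.last N)).1 ((hadj _ _).2 (Fin.zero_le _))
  let W := {v : V // col v = i}
  let Q1 : W → Prop := fun u => G.Adj (b (Fin.last N)).1 u.1
  let Q2 : W → Prop := fun v => G.Adj (a 0).1 v.1
  let R : Fin (s + 2) → W → W → Prop :=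
    Fin.cons (fun u _ => Q1 u) (Fin.cons (fun _ v => Q2 v) fun t u v => M t u.1 v.1 = 0)
  apply hN W R (fun ψ => ψ 0 ∧ ψ 1 ∧ φ fun t => ψ t.succ.succ)
    (fun u v => Q1 u ∧ Q2 v ∧ G.Adj u.1 v.1)
  · intro t
    refine Fin.cases ?_ (fun t => ?_) t
    · exact unary_left Q1 (by omega)
    · refine Fin.cases ?_ (fun t => ?_) t
      · exact unary_right Q2 (by omega)
      · rintro ⟨a', b', h'⟩
        exact zero_stable (M t) r (hM t) ⟨fun j => (a' j).1, fun j => (b' j).1, h'⟩
  · exact fun v h => G.irrefl h.2.2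
  · intro u v huv
    show Q1 u ∧ Q2 v ∧ G.Adj u.1 v.1 ↔ Q1 u ∧ Q2 v ∧ φ fun t => M t u.1 v.1 = 0
    constructor
    · rintro ⟨h1, h2, h3⟩
      refine ⟨h1, h2, (hA u.1 v.1 h1 h2 (fun h => huv (Subtype.ext h)) fun h => ?_).1 h3⟩
      exact col.valid h (u.2.trans v.2.symm)
    · rintro ⟨h1, h2, h3⟩
      refine ⟨h1, h2, (hA u.1 v.1 h1 h2 (fun h => huv (Subtype.ext h)) fun h => ?_).2 h3⟩
      exact col.valid h (u.2.trans v.2.symm)
  · refine ⟨fun j => a j.castSucc, fun j => b j.castSucc, fun j l => ?_⟩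
    constructor
    · rintro ⟨_, _, h⟩
      exact Fin.castSucc_le_castSucc_iff.1 ((hadj _ _).1 h)
    · intro h
      refine ⟨((hadj _ _).2 (Fin.le_last _)).symm, (hadj _ _).2 (Fin.zero_le _), (hadj _ _).2 ?_⟩
      exact Fin.castSucc_le_castSucc_iff.2 h

/-- polynomials of bounded degree, locally at every edge -/
theorem main_poly (m s d D : ℕ) (F : SimpleGraph (Fin m)) (hF : F.IsAcyclic) :
    ∃ f : ℕ → ℕ, ∀ (V : Type) [Fintype V] (G P : SimpleGraph V) (c : ℕ), P.Colorable c →
      (∀ x y, G.Adj x y → ∃ (K : Type) (_ : Field K) (z : V → Fin d → K)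
        (p : Fin s → MvPolynomial (Fin d ⊕ Fin d) K) (φ : (Fin s → Prop) → Prop),
        (∀ t, (p t).totalDegree ≤ D) ∧
        ∀ u v, G.Adj y u → G.Adj x v → u ≠ v → ¬ P.Adj u v →
          (G.Adj u v ↔ φ fun t => MvPolynomial.eval (Sum.elim (z u) (z v)) (p t) = 0)) →
      ¬ Nonempty (F ↪g G) → G.chromaticNumber ≤ (c * f G.cliqueNum : ℕ) := by
  obtain ⟨f, hf⟩ := main_rank m s ((D + 1) ^ d) F hF
  refine ⟨f, fun V _ G P c hP hloc hFG => hf V G P c hP (fun x y hxy => ?_) hFG⟩
  obtain ⟨K, _, z, p, φ, hp, hA⟩ := hloc x y hxy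
  exact ⟨fun _ => K, fun _ => inferInstance,
    fun t => Matrix.of fun u v => MvPolynomial.eval (Sum.elim (z u) (z v)) (p t), φ,
    fun t => poly_rank z (p t) (hp t), hA⟩

end Pool.Agent.TH253.GS
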