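import Pool.Agent.H367R3.GSForest

/-!
# Half-graphs and zero patterns

Ramsey's theorem for pairs, Boolean combinations of relations without large half-graphs, zero patterns
of matrices of bounded rank and of polynomials of bounded degree.
-/

set_option autoImplicit false

namespace Pool.Agent.TH253.GS

open Pool.Agent.H367R3

universe u

/-- sequences whose pairs have a colour depending on the first member only -/
theorem endhom (κ : Type) [Finite κ] [Nonempty κ] : ∀ L : ℕ, ∃ N : ℕ, ∀ (S : Finset ℕ), N ≤ S.card →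
    ∀ c : ℕ → ℕ → κ, ∃ e : Fin L → ℕ, StrictMono e ∧ (∀ i, e i ∈ S) ∧
      ∃ g : Fin L → κ, ∀ i j, i < j → c (e i) (e j) = g i := by
  classical
  have := Fintype.ofFinite κ
  intro L
  induction L with
  | zero => exact ⟨0, fun S _ c => ⟨fun i => i.elim0, fun i => i.elim0, fun i => i.elim0,
      fun i => i.elim0, fun i => i.elim0⟩⟩
  | succ L ih =>
    obtain ⟨N, hN⟩ := ih
    refine ⟨Fintype.card κ * N + 1, fun S hS c => ?_⟩
    have hne : S.Nonempty := Finset.card_pos.1 (by omega)
    set x := S.min' hne with hx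
    have hcard : (Finset.univ : Finset κ).card * N ≤ (S.erase x).card := by
      rw [Finset.card_erase_of_mem (S.min'_mem hne), Finset.card_univ]
      omega
    obtain ⟨γ, _, hγ⟩ := Finset.exists_le_card_fiber_of_mul_le_card_of_maps_to
      (f := fun y => c x y) (fun a _ => Finset.mem_univ _) Finset.univ_nonempty hcard
    obtain ⟨e, he, heS, g, hg⟩ := hN _ hγ c
    have hmem : ∀ i, e i ∈ S ∧ x < e i ∧ c x (e i) = γ := by
      intro i
      have h1 := Finset.mem_filter.1 (heS i)
      have h2 := Finset.mem_erase.1 h1.1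
      refine ⟨h2.2, lt_of_le_of_ne (S.min'_le _ h2.2) (Ne.symm h2.1), h1.2⟩
    refine ⟨Fin.cons x e, ?_, ?_, Fin.cons γ g, ?_⟩
    · intro i j
      refine Fin.cases ?_ (fun i => ?_) i
      · refine Fin.cases ?_ (fun j => ?_) j
        · intro h
          exact absurd h (lt_irrefl _)
        · intro _
          simpa using (hmem j).2.1
      · refine Fin.cases ?_ (fun j => ?_) j
        · intro h
          exact absurd h (Fin.not_lt_zero _)
        · intro h
          simpa using he (Fin.succ_lt_succ_iff.1 h)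
    · intro i
      refine Fin.cases ?_ (fun i => ?_) i
      · simpa using S.min'_mem hne
      · simpa using (hmem i).1
    · intro i j
      refine Fin.cases ?_ (fun i => ?_) i
      · refine Fin.cases ?_ (fun j => ?_) j
        · intro h
          exact absurd h (lt_irrefl _)
        · intro _
          simpa using (hmem j).2.2
      · refine Fin.cases ?_ (fun j => ?_) j
        · intro h
          exact absurd h (Fin.not_lt_zero _)
        · intro h
          simpa using hg i j (Fin.succ_lt_succ_iff.1 h)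

/-- Ramsey's theorem for pairs and finitely many colours -/
theorem ramsey_pairs (κ : Type) [Finite κ] [Nonempty κ] (m : ℕ) : ∃ N : ℕ,
    ∀ c : Fin N → Fin N → κ, ∃ e : Fin m → Fin N, StrictMono e ∧
      ∃ γ : κ, ∀ i j, i < j → c (e i) (e j) = γ := by
  classical
  have := Fintype.ofFinite κ
  obtain ⟨N, hN⟩ := endhom κ (Fintype.card κ * m)
  refine ⟨N, fun c => ?_⟩
  rcases Nat.eq_zero_or_pos m with hm | hm
  · subst hm
    exact ⟨fun i => i.elim0, fun i => i.elim0, Classical.arbitrary κ, fun i => i.elim0⟩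
  have γ0 : κ := Classical.arbitrary κ
  obtain ⟨e, he, heS, g, hg⟩ := hN (Finset.range N) (by simp)
    (fun i j => if h : i < N ∧ j < N then c ⟨i, h.1⟩ ⟨j, h.2⟩ else γ0)
  have hlt : ∀ i, e i < N := fun i => Finset.mem_range.1 (heS i)
  obtain ⟨γ, _, hγ⟩ := Finset.exists_le_card_fiber_of_mul_le_card_of_maps_to
    (s := (Finset.univ : Finset (Fin (Fintype.card κ * m)))) (t := (Finset.univ : Finset κ))
    (f := g) (n := m) (fun a _ => Finset.mem_univ _) Finset.univ_nonempty
    (by rw [Finset.card_univ, Finset.card_univ, Fintype.card_fin])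
  obtain ⟨J, hJI, hJ⟩ := Finset.exists_subset_card_eq hγ
  let o := J.orderEmbOfFin hJ
  have ho : ∀ i, g (o i) = γ := fun i => (Finset.mem_filter.1 (hJI (Finset.orderEmbOfFin_mem J hJ i))).2
  refine ⟨fun i => ⟨e (o i), hlt _⟩, ?_, γ, ?_⟩
  · intro i j hij
    exact he (o.lt_iff_lt.2 hij)
  · intro i j hij
    have h1 := hg (o i) (o j) (o.lt_iff_lt.2 hij)
    rw [dif_pos ⟨hlt _, hlt _⟩, ho] at h1
    exact h1

/-- a half-graph of order `n` for an arbitrary relation -/
def HG {V : Type u} (R : V → V → Prop) (n : ℕ) : Prop :=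
  ∃ a b : Fin n → V, ∀ i j, R (a i) (b j) ↔ i ≤ j

/-- Boolean combinations of relations without large half-graphs have no large half-graphs. -/
theorem boolean_stable (s n : ℕ) : ∃ N : ℕ, ∀ (V : Type u) (R : Fin s → V → V → Prop)
    (φ : (Fin s → Prop) → Prop) (A : V → V → Prop), (∀ t, ¬ HG (R t) n) →
    (∀ v, ¬ A v v) → (∀ u v, u ≠ v → (A u v ↔ φ (fun t => R t u v))) → ¬ HG A N := by
  classical
  obtain ⟨N, hN⟩ := ramsey_pairs ((Fin s → Prop) × (Fin s → Prop) × Prop) (2 * n + 3)
  refine ⟨N, fun V R φ A hR hirr hA => ?_⟩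
  rintro ⟨a, b, hab⟩
  obtain ⟨e, he, ⟨α, β, ε⟩, hγ⟩ := hN fun i j =>
    (fun t => R t (a i) (b j), fun t => R t (a j) (b i), a j = b i)
  have hc : ∀ i j, i < j → (∀ t, R t (a (e i)) (b (e j)) = α t) ∧
      (∀ t, R t (a (e j)) (b (e i)) = β t) ∧ ((a (e j) = b (e i)) = ε) := by
    intro i j hij
    have h1 := hγ i j hij
    simp only [Prod.mk.injEq] at h1
    exact ⟨fun t => congrFun h1.1 t, fun t => congrFun h1.2.1 t, h1.2.2⟩
  have key : ∀ i j : Fin (2 * n + 3), A (a (e i)) (b (e j)) ↔ i ≤ j := by
    intro i j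
    rw [hab]
    exact he.le_iff_le
  -- the three indices `0, 1, 2`
  let i0 : Fin (2 * n + 3) := ⟨0, by omega⟩
  let i1 : Fin (2 * n + 3) := ⟨1, by omega⟩
  let i2 : Fin (2 * n + 3) := ⟨2, by omega⟩
  have h01 : i0 < i1 := by simp [i0, i1]
  have h12 : i1 < i2 := by simp [i1, i2, Fin.lt_def]
  have hε : ¬ ε := by
    intro h
    have e1 : a (e i1) = b (e i0) := by rw [(hc _ _ h01).2.2]; exact h
    have e2 : a (e i2) = b (e i1) := by rw [(hc _ _ h12).2.2]; exact h
    have e3 : a (e i2) = b (e i0) := by rw [(hc _ _ (h01.trans h12)).2.2]; exact h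
    have e4 : a (e i1) = b (e i1) := by rw [e1, ← e3, e2]
    have h5 := (key i1 i1).2 le_rfl
    rw [e4] at h5
    exact hirr _ h5
  have hα : φ α := by
    have h1 := (key i0 i1).2 h01.le
    have hne : a (e i0) ≠ b (e i1) := by
      intro h
      rw [h] at h1
      exact hirr _ h1
    rw [hA _ _ hne] at h1
    have h2 : (fun t => R t (a (e i0)) (b (e i1))) = α := funext fun t => (hc _ _ h01).1 t
    rwa [h2] at h1
  have hβ : ¬ φ β := by
    intro h
    have h1 : ¬ A (a (e i1)) (b (e i0)) := by
      rw [key]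
      exact not_le_of_gt h01
    have hne : a (e i1) ≠ b (e i0) := by
      intro h2
      apply hε
      rw [← (hc _ _ h01).2.2]
      exact h2
    rw [hA _ _ hne] at h1
    have h2 : (fun t => R t (a (e i1)) (b (e i0))) = β := funext fun t => (hc _ _ h01).2.1 t
    rw [h2] at h1
    exact h1 h
  obtain ⟨t, ht⟩ : ∃ t, α t ≠ β t := by
    by_contra hcon
    push Not at hcon
    exact hβ ((funext hcon : α = β) ▸ hα)
  apply hR t
  by_cases hαt : α t
  · have hβt : ¬ β t := fun h => ht (propext ⟨fun _ => h, fun _ => hαt⟩)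
    refine ⟨fun i => a (e ⟨2 * i.1, by omega⟩), fun j => b (e ⟨2 * j.1 + 1, by omega⟩),
      fun i j => ?_⟩
    constructor
    · intro h
      by_contra hcon
      have hlt : (⟨2 * j.1 + 1, by omega⟩ : Fin (2 * n + 3)) < ⟨2 * i.1, by omega⟩ := by
        rw [Fin.lt_def]
        have : j.1 < i.1 := by rw [← Fin.lt_def]; exact not_le.1 hcon
        show 2 * j.1 + 1 < 2 * i.1
        omega
      rw [(hc _ _ hlt).2.1] at h
      exact hβt h
    · intro h
      have hlt : (⟨2 * i.1, by omega⟩ : Fin (2 * n + 3)) < ⟨2 * j.1 + 1, by omega⟩ := by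
        rw [Fin.lt_def]
        have : i.1 ≤ j.1 := h
        show 2 * i.1 < 2 * j.1 + 1
        omega
      rw [(hc _ _ hlt).1]
      exact hαt
  · have hβt : β t := by
      by_contra h
      exact ht (propext ⟨fun h1 => absurd h1 hαt, fun h1 => absurd h1 h⟩)
    refine ⟨fun i => a (e ⟨2 * n + 1 - 2 * i.1, by omega⟩),
      fun j => b (e ⟨2 * n - 2 * j.1, by omega⟩), fun i j => ?_⟩
    have hi := i.2
    have hj := j.2
    constructor
    · intro h
      by_contra hcon
      have hlt : (⟨2 * n + 1 - 2 * i.1, by omega⟩ : Fin (2 * n + 3)) <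
          ⟨2 * n - 2 * j.1, by omega⟩ := by
        rw [Fin.lt_def]
        have : j.1 < i.1 := by rw [← Fin.lt_def]; exact not_le.1 hcon
        show 2 * n + 1 - 2 * i.1 < 2 * n - 2 * j.1
        omega
      rw [(hc _ _ hlt).1] at h
      exact hαt h
    · intro h
      have hlt : (⟨2 * n - 2 * j.1, by omega⟩ : Fin (2 * n + 3)) <
          ⟨2 * n + 1 - 2 * i.1, by omega⟩ := by
        rw [Fin.lt_def]
        have : i.1 ≤ j.1 := h
        show 2 * n - 2 * j.1 < 2 * n + 1 - 2 * i.1
        omega
      rw [(hc _ _ hlt).2.1]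
      exact hβt

/-- The zero pattern of a matrix of rank at most `r` has no half-graph of order `r + 2`. -/
theorem zero_stable {V K : Type*} [Fintype V] [Field K] (M : Matrix V V K) (r : ℕ)
    (hM : M.rank ≤ r) : ¬ HG (fun u v => M u v = 0) (r + 2) := by
  classical
  rintro ⟨a, b, hab⟩
  let v : Fin (r + 1) → (V → K) := fun i => M (a i.succ)
  have hli : LinearIndependent K v := by
    apply LinearIndependent.of_comp (LinearMap.funLeft K K fun j : Fin (r + 1) => b j.castSucc)
    let N : Matrix (Fin (r + 1)) (Fin (r + 1)) K := fun i j => M (a i.succ) (b j.castSucc)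
    have hN : N.det ≠ 0 := by
      rw [Matrix.det_of_isLowerTriangular]
      · apply Finset.prod_ne_zero_iff.2
        intro i _
        show M (a i.succ) (b i.castSucc) ≠ 0
        intro h
        have h1 := (hab _ _).1 h
        exact absurd h1 (not_le_of_gt (Fin.castSucc_lt_succ))
      · intro i j hij
        have hij' : i < j := hij
        show M (a i.succ) (b j.castSucc) = 0
        exact (hab _ _).2 (Fin.succ_le_castSucc_iff.2 hij')
    exact Matrix.linearIndependent_rows_of_det_ne_zero hN
  have h1 := finrank_span_eq_card hli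
  have h2 : Submodule.span K (Set.range v) ≤ Submodule.span K (Set.range M) :=
    Submodule.span_mono (by rintro _ ⟨i, rfl⟩; exact ⟨_, rfl⟩)
  have h3 := Submodule.finrank_mono h2
  have h4 : Module.finrank K (Submodule.span K (Set.range M)) = M.rank :=
    (Matrix.rank_eq_finrank_span_row M).symm
  rw [Fintype.card_fin] at h1
  omega

/-- The values of a polynomial of total degree at most `D` in `2 d` variables at pairs of points of
`K ^ d` form a matrix of rank at most `(D + 1) ^ d`. -/
theorem poly_rank {V K : Type*} [Fintype V] [Field K] {d D : ℕ} (x : V → Fin d → K)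
    (p : MvPolynomial (Fin d ⊕ Fin d) K) (hp : p.totalDegree ≤ D) :
    Matrix.rank (Matrix.of fun u v => MvPolynomial.eval (Sum.elim (x u) (x v)) p : Matrix V V K) ≤
      (D + 1) ^ d := by
  classical
  let g : (Fin d ⊕ Fin d →₀ ℕ) → (Fin d → Fin (D + 1)) := fun β i =>
    ⟨min (β (Sum.inl i)) D, by omega⟩
  let A : Matrix V (Fin d → Fin (D + 1)) K := Matrix.of fun u γ => ∏ i, x u i ^ (γ i).1
  let B : Matrix (Fin d → Fin (D + 1)) V K := Matrix.of fun γ v =>
    ∑ β ∈ p.support with g β = γ, p.coeff β * ∏ i, x v i ^ β (Sum.inr i)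
  have hAB : (Matrix.of fun u v => MvPolynomial.eval (Sum.elim (x u) (x v)) p : Matrix V V K) =
      A * B := by
    ext u v
    rw [Matrix.mul_apply, Matrix.of_apply, MvPolynomial.eval_eq']
    rw [← Finset.sum_fiberwise p.support g]
    refine Finset.sum_congr rfl fun γ _ => ?_
    show _ = (∏ i, x u i ^ (γ i).1) *
      ∑ β ∈ p.support with g β = γ, p.coeff β * ∏ i, x v i ^ β (Sum.inr i)
    rw [Finset.mul_sum]
    refine Finset.sum_congr rfl fun β hβ => ?_
    obtain ⟨hβs, hβg⟩ := Finset.mem_filter.1 hβ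
    rw [Fintype.prod_sum_type]
    have h1 : ∀ i, (γ i).1 = β (Sum.inl i) := by
      intro i
      rw [← hβg]
      show min (β (Sum.inl i)) D = _
      have h2 : β (Sum.inl i) ≤ D :=
        ((MvPolynomial.monomial_le_degreeOf _ hβs).trans (p.degreeOf_le_totalDegree _)).trans hp
      omega
    simp only [Sum.elim_inl, Sum.elim_inr, h1]
    ring
  rw [hAB]
  refine (Matrix.rank_mul_le_left A B).trans ((Matrix.rank_le_card_width A).trans ?_)
  rw [Fintype.card_fun, Fintype.card_fin, Fintype.card_fin]

end Pool.Agent.TH253.GS
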